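import Pool.Agent.K7.H87.EX.Stm2
import Pool.Agent.K7.H87.EX.Main

set_option autoImplicit false

/-! # EX2, job COM -/

namespace Pool.Agent.K7.H75.EXCOM

open Pool.Agent.K7.H87.EX

theorem t (hHol : StHol) (hLev : StLev) : StCom := by
  intro N _ _ hl hr hfin a b ha hab
  obtain ⟨-, -, -, hlt, -⟩ := hLev N hl hr hfin
  obtain ⟨c, hc1, hca⟩ : ∃ c : N, 1 < c ∧ (a = c ∨ a = c⁻¹) := by
    rcases lt_or_gt_of_ne ha with h | h
    · refine ⟨a⁻¹, ?_, Or.inr (inv_inv a).symm⟩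
      refine lt_of_le_of_ne ?_ ?_
      · simpa using inv_le hl hr _ _ h.le
      · intro h1
        exact ha (inv_eq_one.1 h1.symm)
    · exact ⟨a, h, Or.inl rfl⟩
  obtain ⟨φ, hφc, hadd, hmon⟩ := hHol N hl hr c hc1
  have hφ1 : φ 1 = 0 := phi_one hl hr c φ hadd
  have hBc : Bd c c := by
    refine ⟨1, ?_, by simp⟩
    have : c⁻¹ ≤ 1 := by simpa using inv_le hl hr _ _ hc1.le
    simpa using this.trans hc1.le
  have hBa : Bd c a := by
    rcases hca with h | h
    · rw [h]; exact hBc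
    · rw [h]; exact bd_inv hl hr c c hBc
  have hφa : φ a ≠ 0 := by
    rcases hca with h | h
    · rw [h, hφc]; exact one_ne_zero
    · rw [h, phi_inv hl hr c φ hadd c hBc, hφc]
      norm_num
  set D : Subgroup N :=
    { carrier := {x | Bd c x}
      mul_mem' := fun hx hy => bd_mul hl hr c _ _ hx hy
      one_mem' := bd_one hl hr c
      inv_mem' := fun hx => bd_inv hl hr c _ hx } with hD
  have hDc : Conv D := fun x y h1 h2 hy => bd_of_one_le hl hr c x y hc1.le h1 h2 hy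
  have hBb : Bd c b := by
    by_contra hb
    exact absurd ((hlt a b).2 ⟨D, hDc, hBa, hb⟩) (not_lt.2 hab)
  set E : Subgroup N :=
    { carrier := {x | Bd c x ∧ φ x = 0}
      mul_mem' := fun {x y} hx hy =>
        ⟨bd_mul hl hr c _ _ hx.1 hy.1, by rw [hadd x y hx.1 hy.1, hx.2, hy.2, add_zero]⟩
      one_mem' := ⟨bd_one hl hr c, hφ1⟩
      inv_mem' := fun {x} hx =>
        ⟨bd_inv hl hr c _ hx.1, by rw [phi_inv hl hr c φ hadd x hx.1, hx.2, neg_zero]⟩ } with hE
  have hEc : Conv E := by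
    intro x y h1 h2 hy
    have hBx := bd_of_one_le hl hr c x y hc1.le h1 h2 hy.1
    refine ⟨hBx, le_antisymm ?_ ?_⟩
    · have := hmon x y hBx hy.1 h2
      rwa [hy.2] at this
    · have := hmon 1 x (bd_one hl hr c) hBx h1
      rwa [hφ1] at this
  refine (hlt _ _).2 ⟨E, hEc, ?_, fun h => hφa h.2⟩
  have e1 := bd_inv hl hr c a hBa
  have e2 := bd_inv hl hr c b hBb
  have e3 := bd_mul hl hr c _ _ e1 e2
  have e4 := bd_mul hl hr c _ _ e3 hBa
  refine ⟨bd_mul hl hr c _ _ e4 hBb, ?_⟩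
  rw [hadd _ _ e4 hBb, hadd _ _ e3 hBa, hadd _ _ e1 e2, phi_inv hl hr c φ hadd a hBa,
    phi_inv hl hr c φ hadd b hBb]
  ring

end Pool.Agent.K7.H75.EXCOM
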