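import Pool.Agent.K7.H4.FX.Stm

set_option autoImplicit false

/-! # FX, job DEN -/

namespace Pool.Agent.K7.H75.FXDEN

open Filter Pool.Agent.K7.H4.FX

theorem cnt (n : ℕ) :
    ({p : ℕ | p % 16 = 6 ∨ p % 16 = 8 ∨ p % 16 = 15} ∩ Set.Iio n).ncard =
      3 * (n / 16) + (if 6 < n % 16 then 1 else 0) + (if 8 < n % 16 then 1 else 0) := by
  have h1 : ({p : ℕ | p % 16 = 6 ∨ p % 16 = 8 ∨ p % 16 = 15} ∩ Set.Iio n) =
      (((Finset.range n).filter fun p => p % 16 = 6 ∨ p % 16 = 8 ∨ p % 16 = 15 : Finset ℕ) :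
        Set ℕ) := by
    ext p
    simp [and_comm]
  rw [h1, Set.ncard_coe_finset, ← Nat.count_eq_card_filter_range]
  induction n with
  | zero => simp
  | succ n ih =>
    have ih' := ih (by ext p; simp [and_comm])
    rw [Nat.count_succ, ih']
    split_ifs <;> omega

theorem t : StDen := by
  unfold StDen
  have h0 : Tendsto (fun n : ℕ => (3 : ℝ) / n) atTop (nhds 0) :=
    tendsto_const_div_atTop_nhds_zero_nat 3
  rw [tendsto_iff_norm_sub_tendsto_zero]
  refine squeeze_zero' (Eventually.of_forall fun n => norm_nonneg _) ?_ h0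
  filter_upwards [eventually_gt_atTop 0] with n hn
  have hn' : (0 : ℝ) < n := by exact_mod_cast hn
  rw [cnt, Real.norm_eq_abs]
  set c : ℕ := 3 * (n / 16) + (if 6 < n % 16 then 1 else 0) + (if 8 < n % 16 then 1 else 0) with hc
  have h1 : 16 * c ≤ 3 * n + 48 := by
    rw [hc]
    split_ifs <;> omega
  have h2 : 3 * n ≤ 16 * c + 48 := by
    rw [hc]
    split_ifs <;> omega
  have h1' : 16 * (c : ℝ) ≤ 3 * n + 48 := by exact_mod_cast h1
  have h2' : 3 * (n : ℝ) ≤ 16 * c + 48 := by exact_mod_cast h2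
  have h3 : (c : ℝ) / n - 3 / 16 = (16 * c - 3 * n) / (16 * n) := by
    field_simp
  rw [h3, abs_div, abs_of_pos (by positivity : (0 : ℝ) < 16 * n), div_le_div_iff₀ (by positivity) hn']
  have h4 : |16 * (c : ℝ) - 3 * n| ≤ 48 := abs_le.2 ⟨by linarith, by linarith⟩
  nlinarith

end Pool.Agent.K7.H75.FXDEN
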