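import Pool.Agent.K7.H4.FX.Stm

set_option autoImplicit false

/-! # FX, job MOR -/

namespace Pool.Agent.K7.H75.FXMOR

open Pool.Agent.K7.H4.FX

/-- the letters of the word over the larger alphabet -/
def V (L : ℕ) (hL : 0 < L) (w : ℕ → Fin 3) (n : ℕ) : Fin 3 × Fin L :=
  (w (n / L), ⟨n % L, Nat.mod_lt _ hL⟩)

/-- the uniform morphism on the larger alphabet -/
def φ (k L : ℕ) (hL : 0 < L) (g : Fin 3 → ℕ → Fin 3) (a : Fin 3 × Fin L) : List (Fin 3 × Fin L) :=
  (List.range k).map fun j =>
    (g a.1 ((k * a.2.1 + j) / L), ⟨(k * a.2.1 + j) % L, Nat.mod_lt _ hL⟩)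

theorem φ_V (k L : ℕ) (hL : 0 < L) (g : Fin 3 → ℕ → Fin 3) (w : ℕ → Fin 3)
    (hw : ∀ n j, j < k → w (k * n + j) = g (w n) j) (n : ℕ) :
    φ k L hL g (V L hL w n) = (List.range k).map fun j => V L hL w (k * n + j) := by
  unfold φ
  refine List.map_congr_left fun j hj => ?_
  rw [List.mem_range] at hj
  unfold V
  have h1 : k * n + j = (k * (n % L) + j) + L * (k * (n / L)) := by
    have := Nat.mod_add_div n L
    calc k * n + j = k * (n % L + L * (n / L)) + j := by rw [this]
      _ = _ := by ring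
  have h2 : (k * n + j) / L = k * (n / L) + (k * (n % L) + j) / L := by
    rw [h1, Nat.add_mul_div_left _ _ hL]
    ring
  have h3 : (k * n + j) % L = (k * (n % L) + j) % L := by
    rw [h1, Nat.add_mul_mod_self_left]
  have h4 : (k * (n % L) + j) / L < k := by
    rw [Nat.div_lt_iff_lt_mul hL]
    have h5 : n % L < L := Nat.mod_lt _ hL
    have h6 : k * (n % L + 1) ≤ k * L := Nat.mul_le_mul_left _ h5
    calc k * (n % L) + j < k * (n % L) + k := by omega
      _ = k * (n % L + 1) := by ring
      _ ≤ k * L := h6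
  simp only [h2, h3, hw _ _ h4]

theorem flat (k L : ℕ) (hL : 0 < L) (g : Fin 3 → ℕ → Fin 3) (w : ℕ → Fin 3)
    (hw : ∀ n j, j < k → w (k * n + j) = g (w n) j) (N : ℕ) :
    ((List.range N).map (V L hL w)).flatMap (φ k L hL g) = (List.range (k * N)).map (V L hL w) := by
  induction N with
  | zero => simp
  | succ N ih =>
    rw [List.range_succ, List.map_append, List.flatMap_append, ih, Nat.mul_succ, List.range_add,
      List.map_append]
    congr 1
    rw [List.map_cons, List.map_nil, List.flatMap_cons, List.flatMap_nil, List.append_nil,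
      φ_V k L hL g w hw, List.map_map]
    rfl

theorem iter_eq (k L : ℕ) (hL : 0 < L) (g : Fin 3 → ℕ → Fin 3) (w : ℕ → Fin 3)
    (hw : ∀ n j, j < k → w (k * n + j) = g (w n) j) (m : ℕ) :
    iter (φ k L hL g) (V L hL w 0) m = (List.range (k ^ m)).map (V L hL w) := by
  induction m with
  | zero => simp [iter]
  | succ m ih =>
    rw [iter, ih, flat k L hL g w hw, pow_succ']

theorem t : StMor := by
  intro k L g w h hk hL hw u hu
  refine ⟨Fin 3 × Fin L, inferInstance, φ k L hL g, V L hL w 0, fun a => h a.1 a.2.1, ?_, ?_, ?_⟩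
  · obtain ⟨k', rfl⟩ : ∃ k', k = k' + 1 + 1 := ⟨k - 2, by omega⟩
    refine ⟨(List.range (k' + 1)).map fun j => V L hL w ((k' + 1 + 1) * 0 + (j + 1)), by simp, ?_⟩
    rw [φ_V _ L hL g w hw, List.range_succ_eq_map, List.map_cons, List.map_map]
    rfl
  · intro n
    refine ⟨n, ?_⟩
    rw [iter_eq k L hL g w hw, List.length_map, List.length_range]
    exact (Nat.lt_pow_self (by omega)).le
  · intro m
    rw [iter_eq k L hL g w hw]
    refine List.ext_getElem (by simp) fun i h1 h2 => ?_
    simp only [List.getElem_map, List.getElem_range, List.getElem_ofFn]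
    rw [hu]
    rfl

end Pool.Agent.K7.H75.FXMOR
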