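import Mathlib
import Pool.Agent.K7.H80.MD.Stm

set_option autoImplicit false

namespace Pool.Agent.K7.H75.MDMIX

open Finset Filter Pool.Agent.K7.H80.MD

open Classical in
/-- number of ordered pairs of `U × W` with underlying pair `e` -/
noncomputable def c {n : ℕ} (U W : Finset (Fin n)) (e : Sym2 (Fin n)) : ℝ :=
  (((U ×ˢ W).filter fun q : Fin n × Fin n => s(q.1, q.2) = e).card : ℝ)

open Classical in
theorem sum_nbr {n : ℕ} (G : SimpleGraph (Fin n)) (U W : Finset (Fin n)) :
    ∑ u ∈ U, (nbr G W u : ℝ) = ∑ e ∈ G.edgeFinset, c U W e := by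
  have h1 : ∑ u ∈ U, nbr G W u = ((U ×ˢ W).filter fun q : Fin n × Fin n => G.Adj q.1 q.2).card := by
    unfold nbr
    rw [Finset.card_filter, Finset.sum_product]
    refine Finset.sum_congr rfl fun u hu => ?_
    rw [Finset.card_filter]
  have h2 : ((U ×ˢ W).filter fun q : Fin n × Fin n => G.Adj q.1 q.2).card =
      ∑ e ∈ G.edgeFinset, ((U ×ˢ W).filter fun q : Fin n × Fin n => s(q.1, q.2) = e).card := by
    rw [Finset.card_eq_sum_card_fiberwise (f := fun q : Fin n × Fin n => s(q.1, q.2))
      (t := G.edgeFinset)]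
    · refine Finset.sum_congr rfl fun e he => ?_
      congr 1
      ext q
      simp only [Finset.mem_filter, Finset.mem_product]
      constructor
      · rintro ⟨⟨h, _⟩, h'⟩
        exact ⟨h, h'⟩
      · rintro ⟨h, h'⟩
        refine ⟨⟨h, ?_⟩, h'⟩
        rw [SimpleGraph.mem_edgeFinset] at he
        rw [← h'] at he
        exact he
    · intro q hq
      simp only [Finset.coe_filter, Set.mem_setOf_eq] at hq
      simp only [Finset.mem_coe, SimpleGraph.mem_edgeFinset]
      exact hq.2
  unfold c
  rw [← Nat.cast_sum, h1, h2, Nat.cast_sum]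

theorem c_nonneg {n : ℕ} (U W : Finset (Fin n)) (e : Sym2 (Fin n)) : 0 ≤ c U W e := by
  unfold c
  positivity

theorem c_le {n : ℕ} (U W : Finset (Fin n)) (e : Sym2 (Fin n)) : c U W e ≤ 2 := by
  classical
  unfold c
  induction e using Sym2.ind with
  | _ a b =>
    have : ((U ×ˢ W).filter fun q : Fin n × Fin n => s(q.1, q.2) = s(a, b)) ⊆ {(a, b), (b, a)} := by
      intro q hq
      simp only [Finset.mem_filter, Sym2.eq_iff] at hq
      simp only [Finset.mem_insert, Finset.mem_singleton, Prod.ext_iff]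
      exact hq.2
    have h2 := (Finset.card_le_card this).trans Finset.card_le_two
    exact_mod_cast h2

open Classical in
theorem sum_c {n : ℕ} (U W : Finset (Fin n)) :
    ∑ e ∈ univ.filter (fun e : Sym2 (Fin n) => ¬ e.IsDiag), c U W e ≤ (U.card : ℝ) * W.card ∧
    (U.card : ℝ) * W.card ≤
      ∑ e ∈ univ.filter (fun e : Sym2 (Fin n) => ¬ e.IsDiag), c U W e + n := by
  have h1 : (U.card : ℝ) * W.card = ∑ e : Sym2 (Fin n), c U W e := by
    have : (U ×ˢ W).card = ∑ e : Sym2 (Fin n),
        ((U ×ˢ W).filter fun q : Fin n × Fin n => s(q.1, q.2) = e).card :=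
      Finset.card_eq_sum_card_fiberwise (f := fun q : Fin n × Fin n => s(q.1, q.2))
        (t := (univ : Finset (Sym2 (Fin n)))) (fun q _ => by simp)
    unfold c
    rw [← Nat.cast_sum, ← this, Finset.card_product]
    push_cast
    ring
  have h2 : ∑ e : Sym2 (Fin n), c U W e =
      ∑ e ∈ univ.filter (fun e : Sym2 (Fin n) => e.IsDiag), c U W e +
      ∑ e ∈ univ.filter (fun e : Sym2 (Fin n) => ¬ e.IsDiag), c U W e :=
    (Finset.sum_filter_add_sum_filter_not univ _ _).symm
  have h3 : ∑ e ∈ univ.filter (fun e : Sym2 (Fin n) => e.IsDiag), c U W e ≤ n := by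
    have h4 : ((U ×ˢ W).filter fun q : Fin n × Fin n => q.1 = q.2).card =
      ∑ e ∈ univ.filter (fun e : Sym2 (Fin n) => e.IsDiag),
        ((U ×ˢ W).filter fun q : Fin n × Fin n => s(q.1, q.2) = e).card := by
      rw [Finset.card_eq_sum_card_fiberwise (f := fun q : Fin n × Fin n => s(q.1, q.2))
        (t := univ.filter (fun e : Sym2 (Fin n) => e.IsDiag))]
      · refine Finset.sum_congr rfl fun e he => ?_
        congr 1
        ext q
        simp only [Finset.mem_filter, Finset.mem_product, Finset.mem_univ, true_and] at he ⊢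
        constructor
        · rintro ⟨⟨h, _⟩, h'⟩
          exact ⟨h, h'⟩
        · rintro ⟨h, h'⟩
          refine ⟨⟨h, ?_⟩, h'⟩
          rw [← h'] at he
          simpa using he
      · intro q hq
        simp only [Finset.coe_filter, Set.mem_setOf_eq] at hq
        simp only [Finset.coe_filter, Set.mem_setOf_eq, Finset.mem_univ, true_and]
        simpa using hq.2
    have h5 : ((U ×ˢ W).filter fun q : Fin n × Fin n => q.1 = q.2).card ≤ n := by
      have : ((U ×ˢ W).filter fun q : Fin n × Fin n => q.1 = q.2).card ≤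
          (univ : Finset (Fin n)).card := by
        apply Finset.card_le_card_of_injOn (fun q => q.1) (fun q _ => by simp)
        intro q hq r hr h
        simp only [Finset.coe_filter, Set.mem_setOf_eq] at hq hr
        have h' : q.1 = r.1 := h
        exact Prod.ext h' (by rw [← hq.2, ← hr.2, h'])
      simpa using this
    unfold c
    rw [← Nat.cast_sum, ← h4]
    exact_mod_cast h5
  have h6 : 0 ≤ ∑ e ∈ univ.filter (fun e : Sym2 (Fin n) => e.IsDiag), c U W e :=
    Finset.sum_nonneg fun e _ => c_nonneg U W e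
  rw [h1, h2]
  constructor <;> linarith

theorem factor (p s : ℝ) (hp : 0 ≤ p) (hs : |s| ≤ 1) :
    p * Real.exp (s * (1 - p)) + (1 - p) * Real.exp (-(s * p)) ≤ Real.exp (p * s ^ 2) := by
  have h1 : p * Real.exp (s * (1 - p)) + (1 - p) * Real.exp (-(s * p)) =
      Real.exp (-(s * p)) * (1 + p * (Real.exp s - 1)) := by
    have : Real.exp (s * (1 - p)) = Real.exp s * Real.exp (-(s * p)) := by
      rw [← Real.exp_add]
      ring_nf
    rw [this]
    ring
  have h2 : 1 + p * (Real.exp s - 1) ≤ Real.exp (p * (Real.exp s - 1)) := by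
    have := Real.add_one_le_exp (p * (Real.exp s - 1))
    linarith
  rw [h1]
  calc Real.exp (-(s * p)) * (1 + p * (Real.exp s - 1))
      ≤ Real.exp (-(s * p)) * Real.exp (p * (Real.exp s - 1)) :=
        mul_le_mul_of_nonneg_left h2 (Real.exp_pos _).le
    _ = Real.exp (p * (Real.exp s - 1 - s)) := by
        rw [← Real.exp_add]
        ring_nf
    _ ≤ Real.exp (p * s ^ 2) := by
        apply Real.exp_le_exp.mpr
        apply mul_le_mul_of_nonneg_left _ hp
        exact (le_abs_self _).trans (Real.abs_exp_sub_one_sub_id_le hs)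

open Classical in
theorem card_E (n : ℕ) :
    ((univ.filter (fun e : Sym2 (Fin n) => ¬ e.IsDiag)).card : ℝ) ≤ n ^ 2 / 2 := by
  have h1 : (univ.filter (fun e : Sym2 (Fin n) => ¬ e.IsDiag)).card = n.choose 2 := by
    have := Sym2.card_subtype_not_diag (α := Fin n)
    rw [Fintype.card_fin] at this
    rw [← this, Fintype.card_subtype]
  rw [h1, Nat.cast_choose_two]
  have : (0 : ℝ) ≤ n := Nat.cast_nonneg n
  nlinarith

open Classical in
theorem moment (hP : StProd) {n : ℕ} {p : ℝ} (hp : 0 < p) (hp1 : p ≤ 1)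
    (hD : 1 ≤ n * p) (U W : Finset (Fin n)) (t : ℝ) (ht : t ^ 2 * (4 * (n * p)) = 1) :
    ∑ G : SimpleGraph (Fin n), (p ^ G.edgeFinset.card * (1 - p) ^ (n.choose 2 - G.edgeFinset.card)) *
      Real.exp (t * (∑ e ∈ G.edgeFinset, c U W e -
        p * ∑ e ∈ univ.filter (fun e : Sym2 (Fin n) => ¬ e.IsDiag), c U W e)) ≤
      Real.exp (n / 2) := by
  have key := hP n p (fun e => Real.exp (t * c U W e * (1 - p)))
    (fun e => Real.exp (-(t * c U W e * p)))
  have e1 : ∀ G : SimpleGraph (Fin n),
      Real.exp (t * (∑ e ∈ G.edgeFinset, c U W e -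
        p * ∑ e ∈ univ.filter (fun e : Sym2 (Fin n) => ¬ e.IsDiag), c U W e)) =
      (∏ e ∈ G.edgeFinset, Real.exp (t * c U W e * (1 - p))) *
      ∏ e ∈ (univ.filter fun e : Sym2 (Fin n) => ¬ e.IsDiag) \ G.edgeFinset,
        Real.exp (-(t * c U W e * p)) := by
    intro G
    have hsub : G.edgeFinset ⊆ univ.filter fun e : Sym2 (Fin n) => ¬ e.IsDiag := by
      intro e he
      rw [Finset.mem_filter]
      refine ⟨Finset.mem_univ _, ?_⟩
      rw [SimpleGraph.mem_edgeFinset] at he
      exact G.not_isDiag_of_mem_edgeSet he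
    rw [← Real.exp_sum, ← Real.exp_sum, ← Real.exp_add]
    congr 1
    rw [← Finset.sum_sdiff hsub]
    have a1 : ∑ e ∈ G.edgeFinset, t * c U W e * (1 - p) =
        t * (1 - p) * ∑ e ∈ G.edgeFinset, c U W e := by
      rw [Finset.mul_sum]
      exact Finset.sum_congr rfl fun e _ => by ring
    have a2 : ∑ e ∈ (univ.filter fun e : Sym2 (Fin n) => ¬ e.IsDiag) \ G.edgeFinset,
        -(t * c U W e * p) =
        -(t * p) * ∑ e ∈ (univ.filter fun e : Sym2 (Fin n) => ¬ e.IsDiag) \ G.edgeFinset,
          c U W e := by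
      rw [Finset.mul_sum]
      exact Finset.sum_congr rfl fun e _ => by ring
    rw [a1, a2]
    ring
  have e2 : ∑ G : SimpleGraph (Fin n), (p ^ G.edgeFinset.card *
      (1 - p) ^ (n.choose 2 - G.edgeFinset.card)) *
      Real.exp (t * (∑ e ∈ G.edgeFinset, c U W e -
        p * ∑ e ∈ univ.filter (fun e : Sym2 (Fin n) => ¬ e.IsDiag), c U W e)) =
      ∏ e ∈ univ.filter (fun e : Sym2 (Fin n) => ¬ e.IsDiag),
        (p * Real.exp (t * c U W e * (1 - p)) + (1 - p) * Real.exp (-(t * c U W e * p))) := by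
    rw [← key]
    exact Finset.sum_congr rfl fun G _ => by rw [e1 G]
  rw [e2]
  have hn : (0 : ℝ) ≤ n := Nat.cast_nonneg n
  have ht2 : t ^ 2 ≤ 1 / 4 := by
    by_contra h
    push Not at h
    nlinarith
  have hb : ∀ e ∈ univ.filter (fun e : Sym2 (Fin n) => ¬ e.IsDiag),
      p * Real.exp (t * c U W e * (1 - p)) + (1 - p) * Real.exp (-(t * c U W e * p)) ≤
      Real.exp (p * (4 * t ^ 2)) := by
    intro e _
    have hc0 := c_nonneg U W e
    have hc2 := c_le U W e
    have hc4 : c U W e ^ 2 ≤ 4 := by nlinarith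
    have hs2 : (t * c U W e) ^ 2 ≤ 4 * t ^ 2 := by
      rw [mul_pow]
      nlinarith [sq_nonneg t]
    have hs : |t * c U W e| ≤ 1 := by
      rw [← sq_le_one_iff_abs_le_one]
      linarith
    refine (factor p (t * c U W e) hp.le hs).trans ?_
    apply Real.exp_le_exp.mpr
    exact mul_le_mul_of_nonneg_left hs2 hp.le
  refine (Finset.prod_le_prod (fun e _ => ?_) hb).trans ?_
  · have : 0 ≤ 1 - p := by linarith
    positivity
  · rw [Finset.prod_const, ← Real.exp_nat_mul]
    apply Real.exp_le_exp.mpr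
    have hE := card_E n
    have h4 : (0 : ℝ) ≤ p * (4 * t ^ 2) := by positivity
    calc ((univ.filter (fun e : Sym2 (Fin n) => ¬ e.IsDiag)).card : ℝ) * (p * (4 * t ^ 2))
        ≤ (n ^ 2 / 2) * (p * (4 * t ^ 2)) := mul_le_mul_of_nonneg_right hE h4
      _ = n / 2 * (t ^ 2 * (4 * (n * p))) := by ring
      _ = n / 2 := by rw [ht, mul_one]

theorem four_exp : 4 * Real.exp (-(5 / 2 : ℝ)) ≤ 1 / 2 := by
  have h1 : (2.7 : ℝ) ≤ Real.exp 1 := by
    have := Real.exp_one_gt_d9
    linarith
  have h2 : Real.exp (5 / 2 : ℝ) ^ 2 = Real.exp 1 ^ 5 := by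
    rw [← Real.exp_nat_mul, ← Real.exp_nat_mul]
    norm_num
  have h3 : (8 : ℝ) ≤ Real.exp (5 / 2 : ℝ) := by
    by_contra h
    push Not at h
    have hpos := Real.exp_pos (5 / 2 : ℝ)
    have h5 : Real.exp (5 / 2 : ℝ) ^ 2 < 64 := by nlinarith
    have h6 : (2.7 : ℝ) ^ 5 ≤ Real.exp 1 ^ 5 := pow_le_pow_left₀ (by norm_num) h1 5
    rw [h2] at h5
    have h8 : (64 : ℝ) ≤ (2.7 : ℝ) ^ 5 := by norm_num
    linarith
  rw [Real.exp_neg]
  have h7 : (Real.exp (5 / 2 : ℝ))⁻¹ ≤ (8 : ℝ)⁻¹ := inv_anti₀ (by norm_num) h3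
  linarith

open Classical in
theorem t : StProd → StMix := by
  intro hP n p hn hp hp1 hD
  set D : ℝ := n * p with hDdef
  have hD0 : 0 < D := by linarith
  set r : ℝ := Real.sqrt D with hr
  have hr1 : 1 ≤ r := by
    rw [hr]
    exact Real.one_le_sqrt.mpr hD
  have hr2 : r ^ 2 = D := Real.sq_sqrt hD0.le
  have hn0 : (0 : ℝ) ≤ n := Nat.cast_nonneg n
  set τ : ℝ := 1 / (2 * r) with hτ
  have hτ1 : τ ^ 2 * (4 * (n * p)) = 1 := by
    rw [← hDdef, ← hr2, hτ]
    field_simp
    norm_num
  have hτ2 : (-τ) ^ 2 * (4 * (n * p)) = 1 := by rw [neg_sq]; exact hτ1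
  have hτr : τ * (6 * n * r) = 3 * n := by
    rw [hτ]
    field_simp
    norm_num
  have hτ0 : 0 < τ := by rw [hτ]; positivity
  -- weights
  let wt : SimpleGraph (Fin n) → ℝ := fun G =>
    p ^ G.edgeFinset.card * (1 - p) ^ (n.choose 2 - G.edgeFinset.card)
  have hwt : ∀ G, 0 ≤ wt G := by
    intro G
    have : 0 ≤ 1 - p := by linarith
    positivity
  let S : Finset (Fin n) → Finset (Fin n) → ℝ := fun U W =>
    ∑ e ∈ univ.filter (fun e : Sym2 (Fin n) => ¬ e.IsDiag), c U W e
  let Y : SimpleGraph (Fin n) → Finset (Fin n) → Finset (Fin n) → ℝ := fun G U W =>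
    ∑ e ∈ G.edgeFinset, c U W e - p * S U W
  -- pointwise bound
  have hpt : ∀ G : SimpleGraph (Fin n), ¬ Mix G p →
      1 ≤ Real.exp (-(3 * n)) * ∑ U : Finset (Fin n), ∑ W : Finset (Fin n),
        (Real.exp (τ * Y G U W) + Real.exp (-τ * Y G U W)) := by
    intro G hG
    unfold Mix at hG
    push Not at hG
    obtain ⟨U, W, hUW⟩ := hG
    rw [sum_nbr] at hUW
    have hs := sum_c U W
    have hY : 6 * n * r < |Y G U W| := by
      have h1 : |(∑ e ∈ G.edgeFinset, c U W e) - p * U.card * W.card| ≤ |Y G U W| + p * n := by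
        have : (∑ e ∈ G.edgeFinset, c U W e) - p * U.card * W.card =
            Y G U W - p * ((U.card : ℝ) * W.card - S U W) := by
          simp only [Y]
          ring
        rw [this]
        refine (abs_sub _ _).trans ?_
        have h2 : |p * ((U.card : ℝ) * W.card - S U W)| ≤ p * n := by
          rw [abs_of_nonneg]
          · apply mul_le_mul_of_nonneg_left _ hp.le
            have := hs.2
            simp only [S]
            linarith
          · apply mul_nonneg hp.le
            have := hs.1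
            simp only [S]
            linarith
        linarith
      have h3 : p * n ≤ n * r := by
        calc p * n ≤ 1 * n := mul_le_mul_of_nonneg_right hp1 hn0
          _ = n * 1 := by ring
          _ ≤ n * r := mul_le_mul_of_nonneg_left hr1 hn0
      have h4 : 7 * n * r < |(∑ e ∈ G.edgeFinset, c U W e) - p * U.card * W.card| := by
        convert hUW using 2
      nlinarith
    have h5 : Real.exp (3 * n) ≤ Real.exp (τ * Y G U W) + Real.exp (-τ * Y G U W) := by
      rcases le_or_gt 0 (Y G U W) with h | h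
      · rw [abs_of_nonneg h] at hY
        have : Real.exp (3 * n) ≤ Real.exp (τ * Y G U W) := by
          apply Real.exp_le_exp.mpr
          rw [← hτr]
          exact mul_le_mul_of_nonneg_left hY.le hτ0.le
        have := Real.exp_pos (-τ * Y G U W)
        linarith
      · rw [abs_of_neg h] at hY
        have : Real.exp (3 * n) ≤ Real.exp (-τ * Y G U W) := by
          apply Real.exp_le_exp.mpr
          rw [← hτr]
          have := mul_le_mul_of_nonneg_left hY.le hτ0.le
          linarith
        have := Real.exp_pos (τ * Y G U W)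
        linarith
    have h6 : Real.exp (τ * Y G U W) + Real.exp (-τ * Y G U W) ≤
        ∑ U : Finset (Fin n), ∑ W : Finset (Fin n),
        (Real.exp (τ * Y G U W) + Real.exp (-τ * Y G U W)) := by
      have h7 : Real.exp (τ * Y G U W) + Real.exp (-τ * Y G U W) ≤
          ∑ W : Finset (Fin n), (Real.exp (τ * Y G U W) + Real.exp (-τ * Y G U W)) :=
        Finset.single_le_sum (f := fun W => Real.exp (τ * Y G U W) + Real.exp (-τ * Y G U W))
          (fun W _ => by positivity) (Finset.mem_univ W)
      refine h7.trans ?_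
      exact Finset.single_le_sum
        (f := fun U => ∑ W : Finset (Fin n), (Real.exp (τ * Y G U W) + Real.exp (-τ * Y G U W)))
        (fun U _ => Finset.sum_nonneg fun W _ => by positivity) (Finset.mem_univ U)
    calc (1 : ℝ) = Real.exp (-(3 * n)) * Real.exp (3 * n) := by
          rw [← Real.exp_add]
          simp
      _ ≤ _ := mul_le_mul_of_nonneg_left (h5.trans h6) (Real.exp_pos _).le
  -- sum
  have hsum : Pr n p (fun G => ¬ Mix G p) ≤
      ∑ G : SimpleGraph (Fin n), wt G * (Real.exp (-(3 * n)) *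
        ∑ U : Finset (Fin n), ∑ W : Finset (Fin n),
        (Real.exp (τ * Y G U W) + Real.exp (-τ * Y G U W))) := by
    calc Pr n p (fun G => ¬ Mix G p) =
        ∑ G ∈ (univ : Finset (SimpleGraph (Fin n))).filter (fun G => ¬ Mix G p),
          p ^ G.edgeFinset.card * (1 - p) ^ (n.choose 2 - G.edgeFinset.card) := by
          unfold Pr
          refine Finset.sum_congr ?_ fun _ _ => rfl
          ext G
          simp only [Finset.mem_filter]
      _ ≤ ∑ G ∈ (univ : Finset (SimpleGraph (Fin n))).filter (fun G => ¬ Mix G p),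
          wt G * (Real.exp (-(3 * n)) *
          ∑ U : Finset (Fin n), ∑ W : Finset (Fin n),
          (Real.exp (τ * Y G U W) + Real.exp (-τ * Y G U W))) := by
          apply Finset.sum_le_sum
          intro G hG
          have h := hpt G (Finset.mem_filter.mp hG).2
          calc p ^ G.edgeFinset.card * (1 - p) ^ (n.choose 2 - G.edgeFinset.card) = wt G * 1 := by
                rw [mul_one]
            _ ≤ _ := mul_le_mul_of_nonneg_left h (hwt G)
      _ ≤ _ := by
          apply Finset.sum_le_sum_of_subset_of_nonneg (Finset.filter_subset _ _)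
          intro G _ _
          apply mul_nonneg (hwt G)
          apply mul_nonneg (Real.exp_pos _).le
          exact Finset.sum_nonneg fun U _ => Finset.sum_nonneg fun W _ => by positivity
  have hswap : ∑ G : SimpleGraph (Fin n), wt G * (Real.exp (-(3 * n)) *
        ∑ U : Finset (Fin n), ∑ W : Finset (Fin n),
        (Real.exp (τ * Y G U W) + Real.exp (-τ * Y G U W))) =
      Real.exp (-(3 * n)) * ∑ U : Finset (Fin n), ∑ W : Finset (Fin n),
        (∑ G : SimpleGraph (Fin n), wt G * Real.exp (τ * Y G U W) +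
          ∑ G : SimpleGraph (Fin n), wt G * Real.exp (-τ * Y G U W)) := by
    calc ∑ G : SimpleGraph (Fin n), wt G * (Real.exp (-(3 * n)) *
          ∑ U : Finset (Fin n), ∑ W : Finset (Fin n),
          (Real.exp (τ * Y G U W) + Real.exp (-τ * Y G U W)))
        = ∑ G : SimpleGraph (Fin n), Real.exp (-(3 * n)) *
          ∑ U : Finset (Fin n), ∑ W : Finset (Fin n),
          (wt G * Real.exp (τ * Y G U W) + wt G * Real.exp (-τ * Y G U W)) := by
          refine Finset.sum_congr rfl fun G _ => ?_
          rw [mul_left_comm]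
          congr 1
          rw [Finset.mul_sum]
          refine Finset.sum_congr rfl fun U _ => ?_
          rw [Finset.mul_sum]
          refine Finset.sum_congr rfl fun W _ => ?_
          ring
      _ = _ := by
          rw [← Finset.mul_sum]
          congr 1
          rw [Finset.sum_comm]
          refine Finset.sum_congr rfl fun U _ => ?_
          rw [Finset.sum_comm]
          refine Finset.sum_congr rfl fun W _ => ?_
          rw [Finset.sum_add_distrib]
  have hbound : ∑ U : Finset (Fin n), ∑ W : Finset (Fin n),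
        (∑ G : SimpleGraph (Fin n), wt G * Real.exp (τ * Y G U W) +
          ∑ G : SimpleGraph (Fin n), wt G * Real.exp (-τ * Y G U W)) ≤
      ∑ U : Finset (Fin n), ∑ W : Finset (Fin n), (2 * Real.exp (n / 2)) := by
    refine Finset.sum_le_sum fun U _ => Finset.sum_le_sum fun W _ => ?_
    have m1 := moment hP hp hp1 hD U W τ hτ1
    have m2 := moment hP hp hp1 hD U W (-τ) hτ2
    have m1' : ∑ G : SimpleGraph (Fin n), wt G * Real.exp (τ * Y G U W) ≤ Real.exp (n / 2) := m1
    have m2' : ∑ G : SimpleGraph (Fin n), wt G * Real.exp (-τ * Y G U W) ≤ Real.exp (n / 2) := m2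
    linarith
  have hconst : ∑ U : Finset (Fin n), ∑ W : Finset (Fin n), (2 * Real.exp ((n : ℝ) / 2)) =
      2 * (4 : ℝ) ^ n * Real.exp (n / 2) := by
    rw [Finset.sum_const, Finset.sum_const, Finset.card_univ, Fintype.card_finset, Fintype.card_fin]
    simp only [nsmul_eq_mul]
    push_cast
    have : (4 : ℝ) ^ n = 2 ^ n * 2 ^ n := by
      rw [← mul_pow]
      norm_num
    rw [this]
    ring
  have hfin : Real.exp (-(3 * n)) * (2 * (4 : ℝ) ^ n * Real.exp (n / 2)) ≤ 2 * (1 / 2) ^ n := by
    have h1 : Real.exp (-(3 * n)) * (2 * (4 : ℝ) ^ n * Real.exp (n / 2)) =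
        2 * (4 * Real.exp (-(5 / 2 : ℝ))) ^ n := by
      rw [mul_pow, ← Real.exp_nat_mul]
      have : Real.exp (n * (-(5 / 2 : ℝ))) = Real.exp (-(3 * n)) * Real.exp (n / 2) := by
        rw [← Real.exp_add]
        ring_nf
      rw [this]
      ring
    rw [h1]
    apply mul_le_mul_of_nonneg_left _ (by norm_num)
    exact pow_le_pow_left₀ (by positivity) four_exp n
  calc Pr n p (fun G => ¬ Mix G p) ≤ _ := hsum
    _ = _ := hswap
    _ ≤ Real.exp (-(3 * n)) * (2 * (4 : ℝ) ^ n * Real.exp (n / 2)) := by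
        apply mul_le_mul_of_nonneg_left _ (Real.exp_pos _).le
        rw [← hconst]
        exact hbound
    _ ≤ _ := hfin

end Pool.Agent.K7.H75.MDMIX
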